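import Pool.Agent.Y142.SV.Stm
import Pool.Agent.Y177.SU.Fftd

set_option autoImplicit false
set_option linter.unusedSectionVars false

/-! Descent of the first fundamental theorem, selfadjoint coefficients (project Y142-SV, FFTDV). -/

open Matrix Polynomial

namespace Pool.Agent.Y79.SV

open Pool.Agent.Y142.SU (FromHerm)
open Pool.Agent.Y142.SV
open Pool.Agent.Y177.SU

variable {K : Type} [Field K] [CharZero K] {N k : ℕ} {𝒞 : Subalgebra K (Matrix (Fin N) (Fin N) K)}
variable {Ω : Type} [Field Ω] [Algebra K Ω]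

theorem up_neg {J : Matrix (Fin N) (Fin N) K} (h : Jᵀ = -J) : (up Ω J)ᵀ = -up Ω J := by
  rw [← up_transpose, h]
  ext i j
  simp [up]

/-- the form over the larger field -/
theorem bc_selfadj {J : Matrix (Fin N) (Fin N) K} (h : Selfadj J 𝒞) :
    Selfadj (up Ω J) (bc 𝒞 Ω) := by
  obtain ⟨h1, h2, h3, h4⟩ := h
  have hdet : ∀ M : Matrix (Fin N) (Fin N) K, M.det ≠ 0 → (up Ω M).det ≠ 0 := by
    intro M hM
    have e : (up Ω M).det = algebraMap K Ω M.det := (RingHom.map_det _ _).symm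
    rw [e]
    exact fun h0 => hM ((algebraMap K Ω).injective (by rw [h0, map_zero]))
  refine ⟨?_, hdet _ h2, bc_comm h3, ?_⟩
  · rcases h1 with h | h
    · left
      rw [← up_transpose, h]
    · exact Or.inr (up_neg h)
  · intro M hM
    obtain ⟨c, rfl⟩ := coords (Module.finBasis K 𝒞) hM
    rw [Matrix.transpose_sum, Finset.sum_mul, Finset.mul_sum]
    refine Finset.sum_congr rfl fun i _ => ?_
    rw [Matrix.transpose_smul, smul_mul_assoc, mul_smul_comm, ← up_transpose, ← up_mul, ← up_mul,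
      h4 _ (Module.finBasis K 𝒞 i).2]

theorem lv_map (lm : Ω →ₗ[K] K) {J : Matrix (Fin N) (Fin N) K} {X : Matrix (Fin N) (Fin N) Ω}
    (hX : LieV (up Ω J) (bc 𝒞 Ω) X) : LieV J 𝒞 (X.map lm) := by
  obtain ⟨h1, h2⟩ := hX
  refine ⟨fun A hA => ?_, ?_⟩
  · rw [← map_mul_up, ← map_up_mul, h1 _ (up_mem hA)]
  · rw [← Matrix.transpose_map, ← map_mul_up, ← map_up_mul]
    have h4 : (Xᵀ * up Ω J).map lm + (up Ω J * X).map lm =
        (Xᵀ * up Ω J + up Ω J * X).map lm := by
      ext i j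
      simp
    rw [h4, h2]
    ext i j
    simp

/-- the form over the larger field is killed by the larger Lie algebra -/
theorem killed {J : Matrix (Fin N) (Fin N) K}
    (φ : MultilinearMap K (fun _ : Fin k => Fin N → K) K)
    (h : ∀ X, LieV J 𝒞 X → ∀ v : Fin k → Fin N → K,
      ∑ j, φ (Function.update v j (X *ᵥ v j)) = 0)
    (X : Matrix (Fin N) (Fin N) Ω) (hX : LieV (up Ω J) (bc 𝒞 Ω) X) (v : Fin k → Fin N → Ω) :
    ∑ j, upf Ω φ (Function.update v j (X *ᵥ v j)) = 0 := by
  classical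
  have hK : ∀ u : Fin k → Fin N → K,
      ∑ j, upf Ω φ (Function.update (fun i => upv Ω (u i)) j (X *ᵥ upv Ω (u j))) = 0 := by
    intro u
    rw [← Module.forall_dual_apply_eq_zero_iff K]
    intro lm
    rw [map_sum, ← h (X.map lm) (lv_map lm hX) u]
    refine Finset.sum_congr rfl fun j _ => ?_
    rw [lam]
    congr 2
    funext a
    unfold Matrix.mulVec dotProduct upv
    rw [map_sum]
    refine Finset.sum_congr rfl fun b _ => ?_
    show lm (X a b * algebraMap K Ω (u j b)) = lm (X a b) * u j b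
    rw [mul_comm, ← Algebra.smul_def, map_smul, smul_eq_mul, mul_comm]
  let Ψ : MultilinearMap Ω (fun _ : Fin k => Fin N → Ω) Ω :=
    ∑ j, (upf Ω φ).compLinearMap (fun i => if i = j then X.mulVecLin else LinearMap.id)
  have hΨ : ∀ u, Ψ u = ∑ j, upf Ω φ (Function.update u j (X *ᵥ u j)) := by
    intro u
    show (∑ j, (upf Ω φ).compLinearMap
      (fun i => if i = j then X.mulVecLin else LinearMap.id)) u = _
    rw [_root_.sum_apply]
    refine Finset.sum_congr rfl fun j _ => ?_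
    rw [MultilinearMap.compLinearMap_apply]
    congr 1
    funext i
    by_cases hi : i = j
    · subst hi
      rw [if_pos rfl, Function.update_self, Matrix.mulVecLin_apply]
    · rw [if_neg hi, Function.update_of_ne hi, LinearMap.id_apply]
  rw [← hΨ, expand Ψ v]
  apply Finset.sum_eq_zero
  intro r _
  have h1 : (fun j : Fin k => (Pi.single (r j) (1 : Ω) : Fin N → Ω)) =
      fun j => upv Ω (Pi.single (r j) (1 : K)) := by
    funext j b
    unfold upv
    by_cases hb : b = r j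
    · subst hb; simp
    · rw [Pi.single_eq_of_ne hb, Pi.single_eq_of_ne hb, map_zero]
  rw [h1, hΨ]
  rw [hK (fun j => Pi.single (r j) (1 : K)), mul_zero]

theorem t (h : Pool.Agent.Y142.SV.S_FFTV) : Pool.Agent.Y142.SV.S_FFTDV := by
  intro ℓ _ N n J 𝒞 hJ hred htr k φ hk hφ
  have h1 := h (AlgebraicClosure ℚ_[ℓ]) N n (up _ J) (bc 𝒞 _) (bc_selfadj hJ)
    (bc_red hJ.2.2.1 hred) (bc_rank hred htr) k (upf _ φ)
    (hk.imp id (fun h => up_neg h)) (killed φ hφ)
  obtain ⟨r, hr⟩ := LinearMap.exists_leftInverse_of_injective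
    (Algebra.linearMap ℚ_[ℓ] (AlgebraicClosure ℚ_[ℓ]))
    (LinearMap.ker_eq_bot.2 (algebraMap ℚ_[ℓ] (AlgebraicClosure ℚ_[ℓ])).injective)
  have h2 := desc (J := J) r h1 1
  have h3 : (fun v : Fin k → Fin N → ℚ_[ℓ] => r (1 * (fun v => upf (AlgebraicClosure ℚ_[ℓ]) φ v)
      (fun j => upv (AlgebraicClosure ℚ_[ℓ]) (v j)))) = fun v => φ v := by
    funext v
    simp only [one_mul]
    rw [upf_up]
    exact LinearMap.congr_fun hr (φ v)
  rw [h3] at h2
  exact h2

end Pool.Agent.Y79.SV
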